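import Pool.Agent.Helper47.LB.Trunc
import Pool.Agent.Helper47.LB.Op
import Pool.Agent.Helper47.LB.Feas

/-!
Lower bounds for the mixed semidefinite hierarchy (Lasserre hierarchy on top of conditioned
points) of the kissing problem: definitions.
-/

set_option autoImplicit false

open MeasureTheory Finset
open scoped RealInnerProductSpace

namespace Pool.Agent.Helper85.LP

open Pool.Agent.Helper47.KP (Bd pim Sph EE)
open Pool.Agent.Helper47.LB

/-! ### kernels -/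

/-- The standing assumptions on the kernel `g`, with the constants `D s` for stars with `s`
leaves. -/
structure KerD {X : Type} [MeasurableSpace X] (σ : Measure X) (g : X → X → ℝ) (G v ε : ℝ)
    (D : ℕ → ℝ) : Prop where
  ker : Ker σ g G v ε
  star : ∀ s : ℕ, 1 ≤ s →
    NB (pis σ (Fin s)) σ (fun a y => ∏ i, (g (a i) y - 1)) (√v ^ (s + 1) * D s)
  D0 : D 0 = 1
  D_nonneg : ∀ s, 0 ≤ D s
  D_le : ∀ s, D s ≤ 1
  D_mul : ∀ a b, D a * D b ≤ D (a + b)

/-- the constants for stars on the sphere -/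
noncomputable def DD (d s : ℕ) : ℝ :=
  if s = 0 then 1 else
    min ((2 : ℝ) ^ (-(0.096 : ℝ) * d)) ((1 + (s : ℝ) / 40) ^ (-(0.249 : ℝ) * d))

section

variable {X : Type} [DecidableEq X]

/-- `Q` has at most `k` points, `S` has at most `t` points, `Q` and `S` are disjoint and `Q ∪ S` is
separated -/
def SepM (R : X → X → Prop) (k t : ℕ) (Q S : Finset X) : Prop :=
  Q.card ≤ k ∧ S.card ≤ t ∧ Disjoint Q S ∧ ∀ x ∈ Q ∪ S, ∀ y ∈ Q ∪ S, x ≠ y → R x y

/-- triples of tuples `Q, S, T` such that `Q ∪ S` and `Q ∪ T` are separated -/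
def SepTM (R : X → X → Prop) (j p q : ℕ) : Set ((Fin j → X) × (Fin p → X) × (Fin q → X)) :=
  {w | w.1 ∈ SepT R j ∧ w.2.1 ∈ SepT R p ∧ w.2.2 ∈ SepT R q ∧
    (∀ a b, R (w.1 a) (w.2.1 b)) ∧ ∀ a b, R (w.1 a) (w.2.2 b)}

/-- the assumptions on the kernels of a feasible solution -/
structure PM [TopologicalSpace X] (R : X → X → Prop) (k t : ℕ)
    (F : Finset X → Finset X → Finset X → ℝ) : Prop where
  cont : ∀ j p q, j ≤ k → p ≤ t → q ≤ t → ContinuousOn
    (fun w : (Fin j → X) × (Fin p → X) × (Fin q → X) =>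
      F (univ.image w.1) (univ.image w.2.1) (univ.image w.2.2)) (SepTM R j p q)
  symm : ∀ Q S T, SepM R k t Q S → SepM R k t Q T → F Q S T = F Q T S
  psd : ∀ (Q : Finset X) (n : ℕ) (S : Fin n → Finset X) (c : Fin n → ℝ),
    (∀ i, SepM R k t Q (S i)) → 0 ≤ ∑ i, ∑ j, c i * c j * F Q (S i) (S j)

open Classical in
/-- truncation to separated sets -/
noncomputable def truncM (R : X → X → Prop) (k t : ℕ) (F : Finset X → Finset X → Finset X → ℝ)
    (Q S T : Finset X) : ℝ :=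
  if SepM R k t Q S ∧ SepM R k t Q T then F Q S T else 0

/-- the operator of the mixed hierarchy -/
noncomputable def opM (k t : ℕ) (F : Finset X → Finset X → Finset X → ℝ) (S : Finset X) : ℝ :=
  ∑ Q ∈ S.powerset, ∑ J ∈ S.powerset, ∑ J' ∈ S.powerset,
    if J ∪ J' = S \ Q ∧ Q.card ≤ k ∧ J.card ≤ t ∧ J'.card ≤ t then F Q J J' else 0

/-- the operator `opM` in terms of the indices of a tuple -/
noncomputable def AM (k t : ℕ) (F : Finset X → Finset X → Finset X → ℝ) {m : ℕ}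
    (x : Fin m → X) : ℝ :=
  ∑ A : Finset (Fin m), ∑ J : Finset (Fin m), ∑ J' : Finset (Fin m),
    if J ∪ J' = Aᶜ ∧ A.card ≤ k ∧ J.card ≤ t ∧ J'.card ≤ t then
      F (A.image x) (J.image x) (J'.image x) else 0

variable [MeasurableSpace X]

/-- the moment functional of the mixed hierarchy -/
noncomputable def LamM (σ : Measure X) (k t : ℕ) (N : ℝ) (g : X → X → ℝ)
    (F : Finset X → Finset X → Finset X → ℝ) : ℝ :=
  ∑ m ∈ range (k + 2 * t + 1), N ^ m / (m.factorial : ℝ) *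
    ∫ x : Fin m → X, sf g x * AM k t F x ∂(pim σ m)

/-- the moment functional of level `t`, conditioned by the points `Q` -/
noncomputable def LQ (σ : Measure X) (t : ℕ) (N : ℝ) (g : X → X → ℝ)
    (K : Finset X → Finset X → ℝ) {j : ℕ} (Q : Fin j → X) : ℝ :=
  ∑ m ∈ range (2 * t + 1), N ^ m / (m.factorial : ℝ) *
    ∫ x : Fin m → X, cr g Q x * (sf g x * AK t K x) ∂(pim σ m)

end

/-! ### the hierarchy -/

open Classical in
/-- feasible solutions of the mixed hierarchy -/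
structure MFeas (d k t : ℕ) (F : Finset (Sph d) → Finset (Sph d) → Finset (Sph d) → ℝ) :
    Prop where
  cont : ∀ j p q, j ≤ k → p ≤ t → q ≤ t → ContinuousOn
    (fun w : (Fin j → Sph d) × (Fin p → Sph d) × (Fin q → Sph d) =>
      F (univ.image w.1) (univ.image w.2.1) (univ.image w.2.2))
    {w | (∀ a b, a ≠ b → ⟪(w.1 a : EE d), (w.1 b : EE d)⟫ ≤ 1 / 2) ∧
      (∀ a b, a ≠ b → ⟪(w.2.1 a : EE d), (w.2.1 b : EE d)⟫ ≤ 1 / 2) ∧
      (∀ a b, a ≠ b → ⟪(w.2.2 a : EE d), (w.2.2 b : EE d)⟫ ≤ 1 / 2) ∧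
      (∀ a b, ⟪(w.1 a : EE d), (w.2.1 b : EE d)⟫ ≤ 1 / 2) ∧
      ∀ a b, ⟪(w.1 a : EE d), (w.2.2 b : EE d)⟫ ≤ 1 / 2}
  symm : ∀ Q S T, Q.card ≤ k → S.card ≤ t → T.card ≤ t → Disjoint Q S → Disjoint Q T →
    Separated (Q ∪ S) → Separated (Q ∪ T) → F Q S T = F Q T S
  psd : ∀ Q : Finset (Sph d), Q.card ≤ k → ∀ (n : ℕ) (S : Fin n → Finset (Sph d))
    (c : Fin n → ℝ), (∀ i, (S i).card ≤ t ∧ Disjoint Q (S i) ∧ Separated (Q ∪ S i)) →
    0 ≤ ∑ i, ∑ j, c i * c j * F Q (S i) (S j)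
  le : ∀ S : Finset (Sph d), S.Nonempty → S.card ≤ k + 2 * t → Separated S →
    opM k t F S ≤ if S.card = 1 then -1 else 0

end Pool.Agent.Helper85.LP
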