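import Pool.Agent.Helper86.LP.Exists
import Pool.Agent.Helper65.LP.Bound
import Pool.Agent.Helper9.LP.Num4

/-!
The barrier for the mixed hierarchy of the kissing problem.
-/

set_option autoImplicit false

open MeasureTheory Finset
open scoped RealInnerProductSpace

namespace Pool.Agent.Helper85.LP

open Pool.Agent.Helper47.KP (Bd pim sig Sph EE den PP Par)
open Pool.Agent.Helper47.LB

open Pool.Agent.Helper86.LP (exists_kernel)
open Pool.Agent.Helper65.LP (abstract_boundM)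
open Pool.Agent.Helper9.LP (num num_cor)

open Classical in
/-- feasible solutions satisfy the assumptions of the abstract bound -/
lemma MFeas.pm {d k t : ℕ} {F : Finset (Sph d) → Finset (Sph d) → Finset (Sph d) → ℝ}
    (hf : MFeas d k t F) :
    PM (fun x y : Sph d => ⟪(x : EE d), (y : EE d)⟫ ≤ 1 / 2) k t F := by
  refine ⟨fun j p q hj hp hq => hf.cont j p q hj hp hq, fun Q S T hS hT => ?_,
    fun Q n S c hS => ?_⟩
  · exact hf.symm Q S T hS.1 hS.2.1 hT.2.1 hS.2.2.1 hT.2.2.1 hS.2.2.2 hT.2.2.2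
  · rcases n with _ | n
    · simp
    · exact hf.psd Q (hS 0).1 (n + 1) S c fun i => ⟨(hS i).2.1, (hS i).2.2.1, (hS i).2.2.2⟩

theorem mixed_barrier : ∃ δ : ℝ, 0 < δ ∧ ∃ d₀ : ℕ, ∀ d : ℕ, d₀ ≤ d → ∀ t k : ℕ, 1 ≤ t →
    (t : ℝ) ≤ δ * d → (k : ℝ) ≤ 2 ^ (δ * d) →
    ∀ F : Finset (Sph d) → Finset (Sph d) → Finset (Sph d) → ℝ, MFeas d k t F →
      (2 / √3) ^ d * max ((2 : ℝ) ^ ((0.095 : ℝ) * d / t))
        ((1 + (t : ℝ) / 40) ^ ((0.24 : ℝ) * d / t)) ≤ F ∅ ∅ ∅ := by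
  classical
  obtain ⟨C, θ, hC, hθ0, hθ1, d₁, hker⟩ := exists_kernel
  obtain ⟨δ, hδ, d₂, hnum⟩ := num hC hθ0 hθ1
  refine ⟨δ, hδ, max (max d₁ d₂) 1, fun d hd t k ht htd hkd F hf => ?_⟩
  have hd1 : d₁ ≤ d := le_trans (le_trans (le_max_left _ _) (le_max_left _ _)) hd
  have hd2 : d₂ ≤ d := le_trans (le_trans (le_max_right _ _) (le_max_left _ _)) hd
  have hd3 : 1 ≤ d := le_trans (le_max_right _ _) hd
  have : NeZero d := ⟨by omega⟩
  obtain ⟨g, ε, hg0, hk⟩ := hker d hd1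
  obtain ⟨N, hN, hNv, h4v, hG2, hkv, hm, hval⟩ := hnum d hd2 t k ht htd hkd
  refine hval.trans ?_
  refine abstract_boundM hk (R := fun x y : Sph d => ⟪(x : EE d), (y : EE d)⟫ ≤ 1 / 2)
    (k := k) (t := t) (F := F)
    (isClosed_le Pool.Agent.Helper47.KP.continuous_inner2 continuous_const)
    (fun x => ?_) (fun x y h => ?_) (fun x y hxy => ?_) (MFeas.pm hf) ht ?_ hN hNv h4v hG2 hkv hm
  · show ¬ ⟪(x : EE d), (x : EE d)⟫ ≤ 1 / 2
    rw [Pool.Agent.Helper47.KP.inner_self_S]; norm_num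
  · show ⟪(y : EE d), (x : EE d)⟫ ≤ 1 / 2
    rw [real_inner_comm]
    exact h
  · by_contra hcon
    have hcon' : 1 / 2 < ⟪(x : EE d), (y : EE d)⟫ := not_le.mp hcon
    exact hxy (hg0 _ hcon')
  · intro S hS hSt hSs
    exact hf.le S hS hSt hSs

theorem mixed_barrier_cor (C : ℝ) : ∃ δ : ℝ, 0 < δ ∧ ∃ d₀ : ℕ, ∀ d : ℕ, d₀ ≤ d →
    ∀ t k : ℕ, 1 ≤ t → (t : ℝ) ≤ δ * d → (k : ℝ) ≤ 2 ^ (δ * d) →
    ∀ F : Finset (Sph d) → Finset (Sph d) → Finset (Sph d) → ℝ, MFeas d k t F →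
      (2 / √3) ^ d * (d : ℝ) ^ C ≤ F ∅ ∅ ∅ := by
  obtain ⟨δ₁, hδ₁, d₁, h1⟩ := mixed_barrier
  obtain ⟨δ₂, hδ₂, d₂, h2⟩ := num_cor C
  refine ⟨min δ₁ δ₂, lt_min hδ₁ hδ₂, max d₁ d₂, fun d hd t k ht htd hkd F hf => ?_⟩
  have hd0 : (0 : ℝ) ≤ d := Nat.cast_nonneg d
  have e1 : min δ₁ δ₂ * (d : ℝ) ≤ δ₁ * d := mul_le_mul_of_nonneg_right (min_le_left _ _) hd0
  have e2 : min δ₁ δ₂ * (d : ℝ) ≤ δ₂ * d := mul_le_mul_of_nonneg_right (min_le_right _ _) hd0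
  have h3 := h1 d (le_trans (le_max_left _ _) hd) t k ht (htd.trans e1)
    (hkd.trans (Real.rpow_le_rpow_of_exponent_le (by norm_num) e1)) F hf
  have h4 := h2 d (le_trans (le_max_right _ _) hd) t ht (htd.trans e2)
  refine le_trans ?_ h3
  exact mul_le_mul_of_nonneg_left (h4.trans (le_max_right _ _)) (by positivity)

end Pool.Agent.Helper85.LP
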