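import Pool.Agent.Helper85.LP.Defs
import Pool.Agent.Helper47.KP.Main

/-!
Feasible solutions of the Lasserre hierarchy and of the `k`-point bound are feasible solutions of
the mixed hierarchy.
-/

set_option autoImplicit false

open Finset
open scoped RealInnerProductSpace

namespace Pool.Agent.Helper85.LP

open Pool.Agent.Helper47.KP (Sph EE BB)
open Pool.Agent.Helper47.LB (LFeas opA Separated)

/-! ### the Lasserre hierarchy -/

open Classical in
theorem lasserre_mixed {d t : ℕ} {K : Finset (Sph d) → Finset (Sph d) → ℝ} (hf : LFeas d t K) :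
    MFeas d 0 t (fun _ J J' => K J J') := by
  refine ⟨fun j p q _ hp hq => ?_, fun Q S T hQ hS hT _ _ h1 h2 => ?_, fun Q hQ n S c hS => ?_,
    fun S hS hSt hSs => ?_⟩
  · exact (hf.cont p q hp hq).comp continuous_snd.continuousOn fun w hw => ⟨hw.2.1, hw.2.2.1⟩
  · have hQ0 : Q = ∅ := card_eq_zero.1 (Nat.le_zero.1 hQ)
    subst hQ0
    rw [empty_union] at h1 h2
    exact hf.symm S T hS hT h1 h2
  · have hQ0 : Q = ∅ := card_eq_zero.1 (Nat.le_zero.1 hQ)
    subst hQ0
    refine hf.psd n S c fun i => ⟨(hS i).1, ?_⟩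
    have h := (hS i).2.2
    rwa [empty_union] at h
  · have h := hf.le S hS (by omega) hSs
    refine le_trans (le_of_eq ?_) h
    unfold opM opA
    rw [sum_eq_single ∅]
    · refine sum_congr rfl fun J _ => sum_congr rfl fun J' _ => ?_
      simp only [sdiff_empty, card_empty, le_refl, true_and]
    · intro Q _ hQ
      refine sum_eq_zero fun J _ => sum_eq_zero fun J' _ => ?_
      rw [if_neg]
      rintro ⟨-, h2, -⟩
      exact hQ (card_eq_zero.1 (Nat.le_zero.1 h2))
    · intro h3
      exact absurd (empty_mem_powerset S) h3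

/-! ### the `k`-point bound -/

section

variable {X : Type} [DecidableEq X]

/-- the points for which `J` stands -/
noncomputable def aJ (Q J : Finset X) : Finset X := if J = ∅ then Q else J

/-- the vector of the rank one part -/
noncomputable def rJ (N : ℝ) (J : Finset X) : ℝ := if J = ∅ then √N else -(1 / √N)

/-- the kernels of the mixed hierarchy -/
noncomputable def kF (T : Finset X → X → X → ℝ) (N : ℝ) (Q J J' : Finset X) : ℝ :=
  1 / N * (∑ x ∈ aJ Q J, ∑ y ∈ aJ Q J', T Q x y) + if Q = ∅ then rJ N J * rJ N J' else 0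

lemma fiber_aJ {S Q J : Finset X} (hQ : Q ⊆ S) (hJ : J ⊆ S \ Q) (hc : J.card ≤ 1) :
    (S.filter fun x => {x} \ Q = J) = aJ Q J := by
  unfold aJ
  by_cases h0 : J = ∅
  · subst h0
    rw [if_pos rfl]
    ext x
    rw [mem_filter, sdiff_eq_empty_iff_subset, singleton_subset_iff]
    exact ⟨fun h => h.2, fun h => ⟨hQ h, h⟩⟩
  · rw [if_neg h0]
    have h1 : J.card = 1 := le_antisymm hc (card_pos.2 (nonempty_iff_ne_empty.2 h0))
    obtain ⟨a, rfl⟩ := card_eq_one.1 h1
    rw [singleton_subset_iff, mem_sdiff] at hJ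
    ext x
    rw [mem_filter, mem_singleton]
    constructor
    · rintro ⟨_, h2⟩
      have h3 : a ∈ ({x} : Finset X) \ Q := by rw [h2]; exact mem_singleton_self a
      rw [mem_sdiff, mem_singleton] at h3
      exact h3.1.symm
    · rintro rfl
      refine ⟨hJ.1, ?_⟩
      ext y
      rw [mem_sdiff, mem_singleton]
      exact ⟨fun h => h.1, fun h => ⟨h, h ▸ hJ.2⟩⟩

lemma sum_pairs {S Q : Finset X} (hQ : Q ⊆ S) (f : X → X → ℝ) :
    ∑ J ∈ S.powerset, ∑ J' ∈ S.powerset, (if J ∪ J' = S \ Q ∧ J.card ≤ 1 ∧ J'.card ≤ 1 then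
      ∑ x ∈ aJ Q J, ∑ y ∈ aJ Q J', f x y else 0) =
    ∑ x ∈ S, ∑ y ∈ S, if Q ∪ {x, y} = S then f x y else 0 := by
  have hmap : ∀ x ∈ S, ({x} : Finset X) \ Q ∈ S.powerset := by
    intro x hx
    rw [mem_powerset]
    exact sdiff_subset.trans (singleton_subset_iff.2 hx)
  have hcard : ∀ x : X, (({x} : Finset X) \ Q).card ≤ 1 := fun x =>
    (card_le_card sdiff_subset).trans (card_singleton x).le
  have hun : ∀ x ∈ S, ∀ y ∈ S, (({x} : Finset X) \ Q ∪ {y} \ Q = S \ Q ↔ Q ∪ {x, y} = S) := by
    intro x hx y hy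
    have e1 : ({x} : Finset X) \ Q ∪ {y} \ Q = {x, y} \ Q := by
      rw [← union_sdiff_distrib]
      rfl
    rw [e1]
    constructor
    · intro h
      have h2 : Q ∪ {x, y} \ Q = Q ∪ S \ Q := by rw [h]
      rw [union_sdiff_self_eq_union, union_sdiff_self_eq_union, union_eq_right.2 hQ] at h2
      exact h2
    · intro h
      rw [← h, union_sdiff_left]
  have hR : ∑ x ∈ S, ∑ y ∈ S, (if Q ∪ {x, y} = S then f x y else 0) =
      ∑ J ∈ S.powerset, ∑ J' ∈ S.powerset, ∑ x ∈ S.filter (fun x => {x} \ Q = J),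
        ∑ y ∈ S.filter (fun y => {y} \ Q = J'), if Q ∪ {x, y} = S then f x y else 0 := by
    have e1 := sum_fiberwise_of_maps_to (s := S) (t := S.powerset)
      (g := fun x => ({x} : Finset X) \ Q) hmap
      (fun x => ∑ y ∈ S, if Q ∪ {x, y} = S then f x y else 0)
    rw [← e1]
    refine sum_congr rfl fun J _ => ?_
    refine Eq.trans (sum_congr rfl fun x _ =>
      (sum_fiberwise_of_maps_to (s := S) (t := S.powerset)
        (g := fun y => ({y} : Finset X) \ Q) hmap
        (fun y => if Q ∪ {x, y} = S then f x y else 0)).symm) ?_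
    exact Finset.sum_comm
  rw [hR]
  refine sum_congr rfl fun J hJ => sum_congr rfl fun J' hJ' => ?_
  by_cases hc : J ∪ J' = S \ Q ∧ J.card ≤ 1 ∧ J'.card ≤ 1
  · rw [if_pos hc]
    have h1 : J ⊆ S \ Q := hc.1 ▸ subset_union_left
    have h2 : J' ⊆ S \ Q := hc.1 ▸ subset_union_right
    rw [← fiber_aJ hQ h1 hc.2.1, ← fiber_aJ hQ h2 hc.2.2]
    refine sum_congr rfl fun x hx => sum_congr rfl fun y hy => ?_
    rw [mem_filter] at hx hy
    rw [if_pos]
    rw [← hun x hx.1 y hy.1, hx.2, hy.2]
    exact hc.1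
  · rw [if_neg hc]
    symm
    refine sum_eq_zero fun x hx => sum_eq_zero fun y hy => ?_
    rw [mem_filter] at hx hy
    rw [if_neg]
    intro h
    rw [← hun x hx.1 y hy.1, hx.2, hy.2] at h
    refine hc ⟨h, ?_, ?_⟩
    · rw [← hx.2]; exact hcard x
    · rw [← hy.2]; exact hcard y

/-- the rank one part -/
noncomputable def rr (N : ℝ) (S : Finset X) : ℝ :=
  ∑ J ∈ S.powerset, ∑ J' ∈ S.powerset,
    if J ∪ J' = S ∧ J.card ≤ 1 ∧ J'.card ≤ 1 then rJ N J * rJ N J' else 0

lemma opM_kF (k : ℕ) (T : Finset X → X → X → ℝ) (N : ℝ) (S : Finset X) :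
    opM k 1 (kF T N) S = 1 / N * BB (k + 2) T S + rr N S := by
  have h1 : ∀ Q ∈ S.powerset, ∑ J ∈ S.powerset, ∑ J' ∈ S.powerset,
      (if J ∪ J' = S \ Q ∧ Q.card ≤ k ∧ J.card ≤ 1 ∧ J'.card ≤ 1 then kF T N Q J J' else 0) =
      1 / N * (if Q.card + 2 ≤ k + 2 then ∑ x ∈ S, ∑ y ∈ S, if Q ∪ {x, y} = S then T Q x y
        else 0 else 0) + if Q = ∅ then rr N S else 0 := by
    intro Q hQ
    rw [mem_powerset] at hQ
    by_cases hk : Q.card ≤ k
    · rw [if_pos (by omega), ← sum_pairs hQ, mul_sum]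
      have h2 : (if Q = ∅ then rr N S else 0) = ∑ J ∈ S.powerset, ∑ J' ∈ S.powerset,
          if J ∪ J' = S \ Q ∧ J.card ≤ 1 ∧ J'.card ≤ 1 then
            (if Q = ∅ then rJ N J * rJ N J' else 0) else 0 := by
        by_cases h0 : Q = ∅
        · subst h0
          simp only [if_true, sdiff_empty]
          rfl
        · simp only [if_neg h0, ite_self, sum_const_zero]
      rw [h2, ← sum_add_distrib]
      refine sum_congr rfl fun J _ => ?_
      rw [mul_sum, ← sum_add_distrib]
      refine sum_congr rfl fun J' _ => ?_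
      by_cases hc : J ∪ J' = S \ Q ∧ J.card ≤ 1 ∧ J'.card ≤ 1
      · rw [if_pos ⟨hc.1, hk, hc.2⟩, if_pos hc, if_pos hc]
        rfl
      · rw [if_neg (fun h => hc ⟨h.1, h.2.2⟩), if_neg hc, if_neg hc]
        ring
    · rw [if_neg (by omega), if_neg]
      · rw [mul_zero, add_zero]
        refine sum_eq_zero fun J _ => sum_eq_zero fun J' _ => ?_
        rw [if_neg (fun h => hk h.2.1)]
      · rintro rfl
        simp at hk
  unfold opM
  rw [sum_congr rfl h1, sum_add_distrib, ← mul_sum]
  congr 1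
  · unfold BB
    rw [sum_filter]
  · rw [sum_ite_eq']
    simp

lemma rr_one {N : ℝ} (hN : 0 < N) (a : X) : rr N {a} = -2 + 1 / N := by
  have hs : √N ≠ 0 := (Real.sqrt_pos.2 hN).ne'
  have hs2 : √N * √N = N := Real.mul_self_sqrt hN.le
  have hne : ({a} : Finset X) ≠ ∅ := singleton_ne_empty a
  have hp : ({a} : Finset X).powerset = {∅, {a}} := by
    ext x
    simp [subset_singleton_iff]
  unfold rr
  rw [hp]
  rw [sum_pair hne.symm, sum_pair hne.symm, sum_pair hne.symm]
  rw [if_neg (fun h => hne (by simpa using h.1.symm)), if_pos ⟨by simp, by simp, by simp⟩,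
    if_pos ⟨by simp, by simp, by simp⟩, if_pos ⟨by simp, by simp, by simp⟩]
  simp only [rJ, if_true, if_neg hne]
  have e1 : √N * -(1 / √N) = -1 := by field_simp
  have e2 : -(1 / √N) * √N = -1 := by field_simp
  have e3 : -(1 / √N) * -(1 / √N) = 1 / N := by
    rw [neg_mul_neg, one_div_mul_one_div, hs2]
  rw [e1, e2, e3]
  ring

lemma rr_big {N : ℝ} (hN : 0 < N) {S : Finset X} (hS : 2 ≤ S.card) :
    rr N S ≤ if S.card = 2 then 2 / N else 0 := by
  have hs2 : √N * √N = N := Real.mul_self_sqrt hN.le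
  have h1 : rr N S = ∑ J ∈ S.powerset, ∑ J' ∈ S.powerset,
      (if J ∪ J' = S \ ∅ ∧ J.card ≤ 1 ∧ J'.card ≤ 1 then
        ∑ _x ∈ aJ ∅ J, ∑ _y ∈ aJ ∅ J', 1 / N else 0) := by
    unfold rr
    refine sum_congr rfl fun J _ => sum_congr rfl fun J' _ => ?_
    rw [sdiff_empty]
    by_cases hc : J ∪ J' = S ∧ J.card ≤ 1 ∧ J'.card ≤ 1
    · rw [if_pos hc, if_pos hc]
      have hu := card_union_le J J'
      rw [hc.1] at hu
      have c1 : J.card = 1 := by omega
      have c2 : J'.card = 1 := by omega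
      have n1 : J ≠ ∅ := by rintro rfl; simp at c1
      have n2 : J' ≠ ∅ := by rintro rfl; simp at c2
      simp only [aJ, rJ, if_neg n1, if_neg n2, sum_const, c1, c2, one_smul]
      rw [neg_mul_neg, one_div_mul_one_div, hs2]
    · rw [if_neg hc, if_neg hc]
  rw [h1, sum_pairs (empty_subset S)]
  simp only [empty_union]
  by_cases h2 : S.card = 2
  · rw [if_pos h2]
    obtain ⟨a, b, hab, rfl⟩ := card_eq_two.1 h2
    rw [sum_pair hab, sum_pair hab, sum_pair hab]
    have n1 : ¬ (({a, a} : Finset X) = {a, b}) := by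
      intro h
      have : b ∈ ({a, a} : Finset X) := by rw [h]; simp
      simp at this
      exact hab this.symm
    have n2 : ¬ (({b, b} : Finset X) = {a, b}) := by
      intro h
      have : a ∈ ({b, b} : Finset X) := by rw [h]; simp
      simp at this
      exact hab this
    rw [if_neg n1, if_neg n2, if_pos rfl, if_pos (pair_comm b a)]
    apply le_of_eq
    ring
  · rw [if_neg h2]
    apply le_of_eq
    refine sum_eq_zero fun x _ => sum_eq_zero fun y _ => ?_
    rw [if_neg]
    intro h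
    have h3 := card_le_two (a := x) (b := y)
    rw [h] at h3
    omega

end

open Classical in
/-- positive semidefinite kernels: sums over a finite family of finite sets -/
lemma psd_family {X : Type} {t : X → X → ℝ}
    (h : ∀ (n : ℕ) (x : Fin n → X) (c : Fin n → ℝ), 0 ≤ ∑ i, ∑ j, c i * c j * t (x i) (x j))
    (n : ℕ) (A : Fin n → Finset X) (c : Fin n → ℝ) :
    0 ≤ ∑ i, ∑ j, c i * c j * ∑ x ∈ A i, ∑ y ∈ A j, t x y := by
  let ι := Σ i : Fin n, A i
  have h1 := h (Fintype.card ι) (fun m => (((Fintype.equivFin ι).symm m).2 : X))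
    (fun m => c ((Fintype.equivFin ι).symm m).1)
  have e1 : ∑ m : Fin (Fintype.card ι), ∑ m' : Fin (Fintype.card ι),
      c ((Fintype.equivFin ι).symm m).1 * c ((Fintype.equivFin ι).symm m').1 *
        t (((Fintype.equivFin ι).symm m).2 : X) (((Fintype.equivFin ι).symm m').2 : X) =
      ∑ s : ι, ∑ s' : ι, c s.1 * c s'.1 * t (s.2 : X) (s'.2 : X) := by
    rw [← Equiv.sum_comp (Fintype.equivFin ι).symm]
    refine sum_congr rfl fun m _ => ?_
    rw [← Equiv.sum_comp (Fintype.equivFin ι).symm]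
  rw [e1] at h1
  have e2 : ∑ s : ι, ∑ s' : ι, c s.1 * c s'.1 * t (s.2 : X) (s'.2 : X) =
      ∑ i, ∑ j, c i * c j * ∑ x ∈ A i, ∑ y ∈ A j, t x y := by
    rw [Fintype.sum_sigma]
    refine sum_congr rfl fun i _ => ?_
    have e3 : ∀ x : A i, ∑ s' : ι, c i * c s'.1 * t (x : X) (s'.2 : X) =
        ∑ j, c i * c j * ∑ y ∈ A j, t (x : X) y := by
      intro x
      rw [Fintype.sum_sigma]
      refine sum_congr rfl fun j _ => ?_
      rw [mul_sum, ← sum_coe_sort (A j)]
    simp only [e3]
    rw [sum_comm]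
    refine sum_congr rfl fun j _ => ?_
    rw [mul_sum, ← sum_coe_sort (A i)]
  rw [← e2]
  exact h1

lemma sum_aJ {X : Type} [DecidableEq X] {j p : ℕ} (hp : p ≤ 1) {z : Fin j → X} {w : Fin p → X}
    (hz : Function.Injective z) (hw : Function.Injective w) (f : X → ℝ) :
    ∑ x ∈ aJ (univ.image z) (univ.image w), f x =
      (if p = 0 then ∑ a, f (z a) else 0) + ∑ b, f (w b) := by
  rcases p with _ | p
  · have h0 : univ.image w = ∅ := by
      rw [image_eq_empty]
      exact univ_eq_empty
    rw [h0, aJ, if_pos rfl, if_pos rfl, sum_image fun a _ b _ h => hz h]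
    simp
  · have h0 : univ.image w ≠ ∅ := by
      rw [Ne, image_eq_empty]
      exact (univ_nonempty (α := Fin (p + 1))).ne_empty
    rw [aJ, if_neg h0, if_neg (by omega), zero_add, sum_image fun a _ b _ h => hw h]

open Classical in
theorem kpoint_mixed {d k : ℕ} {T : Finset (Sph d) → Sph d → Sph d → ℝ} {lam : ℝ}
    (hf : Pool.Agent.Helper47.KP.IsFeasible d (k + 2) T lam) (hN : 0 < 1 + lam) :
    MFeas d k 1 (kF T (1 + lam)) := by
  have hsepQ : ∀ {Q S : Finset (Sph d)}, Separated (Q ∪ S) →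
      Pool.Agent.Helper47.KP.Separated Q := by
    intro Q S h x hx y hy hxy
    exact h x (mem_union_left _ hx) y (mem_union_left _ hy) hxy
  refine ⟨fun j p q hj hp hq => ?_, fun Q S S' hQ hS hS' _ _ h1 h2 => ?_,
    fun Q hQ n S c hS => ?_, fun S hS hSt hSs => ?_⟩
  · -- continuity
    set Dom : Set ((Fin j → Sph d) × (Fin p → Sph d) × (Fin q → Sph d)) :=
      {w | (∀ a b, a ≠ b → ⟪(w.1 a : EE d), (w.1 b : EE d)⟫ ≤ 1 / 2) ∧
      (∀ a b, a ≠ b → ⟪(w.2.1 a : EE d), (w.2.1 b : EE d)⟫ ≤ 1 / 2) ∧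
      (∀ a b, a ≠ b → ⟪(w.2.2 a : EE d), (w.2.2 b : EE d)⟫ ≤ 1 / 2) ∧
      (∀ a b, ⟪(w.1 a : EE d), (w.2.1 b : EE d)⟫ ≤ 1 / 2) ∧
      ∀ a b, ⟪(w.1 a : EE d), (w.2.2 b : EE d)⟫ ≤ 1 / 2} with hDom
    have hinj : ∀ {m : ℕ} {z : Fin m → Sph d},
        (∀ a b, a ≠ b → ⟪(z a : EE d), (z b : EE d)⟫ ≤ 1 / 2) → Function.Injective z :=
      fun h => Pool.Agent.Helper47.KP.SepT.injective h
    have hT : ∀ {u v : (Fin j → Sph d) × (Fin p → Sph d) × (Fin q → Sph d) → Sph d},
        Continuous u → Continuous v →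
        ContinuousOn (fun w => T (univ.image w.1) (u w) (v w)) Dom := by
      intro u v hu hv
      have h1 := hf.cont j (by omega)
      exact h1.comp (f := fun w : (Fin j → Sph d) × (Fin p → Sph d) × (Fin q → Sph d) =>
        (w.1, u w, v w)) (continuous_fst.prodMk (hu.prodMk hv)).continuousOn
        fun w hw => hw.1
    have hz : ∀ a : Fin j, Continuous
        fun w : (Fin j → Sph d) × (Fin p → Sph d) × (Fin q → Sph d) => w.1 a :=
      fun a => (continuous_apply a).comp continuous_fst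
    have hw1 : ∀ b : Fin p, Continuous
        fun w : (Fin j → Sph d) × (Fin p → Sph d) × (Fin q → Sph d) => w.2.1 b :=
      fun b => (continuous_apply b).comp (continuous_fst.comp continuous_snd)
    have hw2 : ∀ b : Fin q, Continuous
        fun w : (Fin j → Sph d) × (Fin p → Sph d) × (Fin q → Sph d) => w.2.2 b :=
      fun b => (continuous_apply b).comp (continuous_snd.comp continuous_snd)
    have hB : ∀ {u : (Fin j → Sph d) × (Fin p → Sph d) × (Fin q → Sph d) → Sph d},
        Continuous u → ContinuousOn (fun w =>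
          (if q = 0 then ∑ a, T (univ.image w.1) (u w) (w.1 a) else 0) +
            ∑ b, T (univ.image w.1) (u w) (w.2.2 b)) Dom := by
      intro u hu
      refine ContinuousOn.add ?_ (continuousOn_finsetSum _ fun b _ => hT hu (hw2 b))
      split_ifs
      · exact continuousOn_finsetSum _ fun a _ => hT hu (hz a)
      · exact continuousOn_const
    have hA : ContinuousOn (fun w : (Fin j → Sph d) × (Fin p → Sph d) × (Fin q → Sph d) =>
        1 / (1 + lam) * ((if p = 0 then ∑ a, ((if q = 0 then ∑ a',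
            T (univ.image w.1) (w.1 a) (w.1 a') else 0) +
            ∑ b, T (univ.image w.1) (w.1 a) (w.2.2 b)) else 0) +
          ∑ b', ((if q = 0 then ∑ a', T (univ.image w.1) (w.2.1 b') (w.1 a') else 0) +
            ∑ b, T (univ.image w.1) (w.2.1 b') (w.2.2 b))) +
        (if j = 0 then (if p = 0 then √(1 + lam) else -(1 / √(1 + lam))) *
          (if q = 0 then √(1 + lam) else -(1 / √(1 + lam))) else 0)) Dom := by
      refine ContinuousOn.add (continuousOn_const.mul (ContinuousOn.add ?_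
        (continuousOn_finsetSum _ fun b _ => hB (hw1 b)))) continuousOn_const
      by_cases hp0 : p = 0
      · simp only [if_pos hp0]
        exact continuousOn_finsetSum _ fun a _ => hB (hz a)
      · simp only [if_neg hp0]
        exact continuousOn_const
    refine hA.congr fun w hw => ?_
    have i1 := hinj hw.1
    have i2 := hinj hw.2.1
    have i3 := hinj hw.2.2.1
    have hem : ∀ {m : ℕ} (z : Fin m → Sph d), (univ.image z = ∅ ↔ m = 0) := by
      intro m z
      rw [image_eq_empty, univ_eq_empty_iff]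
      constructor
      · intro h
        by_contra h0
        exact h.elim ⟨0, Nat.pos_of_ne_zero h0⟩
      · rintro rfl
        infer_instance
    show kF T (1 + lam) (univ.image w.1) (univ.image w.2.1) (univ.image w.2.2) = _
    unfold kF
    rw [sum_aJ hp i1 i2]
    simp only [sum_aJ hq i1 i3]
    congr 1
    simp only [rJ, hem]
  · -- symmetry
    unfold kF
    rw [sum_comm]
    congr 1
    · congr 1
      refine sum_congr rfl fun x _ => sum_congr rfl fun y _ => ?_
      exact hf.symm Q (by omega) (hsepQ h1) _ _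
    · split_ifs
      · exact mul_comm _ _
      · rfl
  · -- positivity
    rcases n with _ | n
    · simp
    have hQs : Pool.Agent.Helper47.KP.Separated Q := hsepQ (hS 0).2.2
    have h1 := psd_family (t := T Q) (hf.psd Q (by omega) hQs) (n + 1) (fun i => aJ Q (S i)) c
    have h2 : ∑ i, ∑ j, c i * c j * kF T (1 + lam) Q (S i) (S j) =
        1 / (1 + lam) * (∑ i, ∑ j, c i * c j * ∑ x ∈ aJ Q (S i), ∑ y ∈ aJ Q (S j), T Q x y) +
        if Q = ∅ then (∑ i, c i * rJ (1 + lam) (S i)) * (∑ i, c i * rJ (1 + lam) (S i))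
          else 0 := by
      have e1 : (if Q = ∅ then (∑ i, c i * rJ (1 + lam) (S i)) *
          (∑ i, c i * rJ (1 + lam) (S i)) else 0) = ∑ i, ∑ j, (if Q = ∅ then
          (c i * rJ (1 + lam) (S i)) * (c j * rJ (1 + lam) (S j)) else 0) := by
        split_ifs
        · rw [sum_mul_sum]
        · simp
      rw [e1, mul_sum, ← sum_add_distrib]
      refine sum_congr rfl fun i _ => ?_
      rw [mul_sum, ← sum_add_distrib]
      refine sum_congr rfl fun j _ => ?_
      unfold kF
      split_ifs <;> ring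
    rw [h2]
    refine add_nonneg (mul_nonneg (by positivity) h1) ?_
    split_ifs
    · exact mul_self_nonneg _
    · exact le_rfl
  · -- the constraints
    rw [opM_kF]
    have hc1 : 1 ≤ S.card := card_pos.2 hS
    have h0 := hf.le S hS (by omega) (fun x hx y hy hxy => hSs x hx y hy hxy)
    have hinv : 0 ≤ 1 / (1 + lam) := by positivity
    have h1 := mul_le_mul_of_nonneg_left h0 hinv
    by_cases c1 : S.card = 1
    · obtain ⟨a, rfl⟩ := card_eq_one.1 c1
      rw [rr_one hN, if_pos c1]
      rw [if_pos c1, if_neg (by omega)] at h1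
      have e1 : 1 / (1 + lam) * (lam - 0) + (-2 + 1 / (1 + lam)) = -1 := by
        field_simp
        ring
      linarith
    · rw [if_neg c1]
      have h2 := rr_big hN (S := S) (by omega)
      rw [if_neg c1] at h1
      by_cases c2 : S.card = 2
      · rw [if_pos c2] at h1 h2
        have e1 : 1 / (1 + lam) * (0 - 2) = -(2 / (1 + lam)) := by ring
        linarith
      · rw [if_neg c2] at h1 h2
        simp only [sub_zero, mul_zero] at h1
        linarith

open Classical in
theorem kF_value {d : ℕ} {T : Finset (Sph d) → Sph d → Sph d → ℝ} {lam : ℝ}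
    (hN : 0 < 1 + lam) : kF T (1 + lam) ∅ ∅ ∅ = 1 + lam := by
  unfold kF aJ rJ
  simp only [if_true, sum_empty, mul_zero, zero_add]
  exact Real.mul_self_sqrt hN.le

end Pool.Agent.Helper85.LP
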